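import Pool.Agent.P8H15.FG.Stm

/-! Project FG, package SAV. -/

set_option autoImplicit false

namespace Pool.Agent.P8H57.FG

open Finset Pool.Agent.P8H15.FG
open Pool.Agent.H560R3.GB (sing C₂)

/-- SAV -/
theorem sav : S_SAVE → S_SAV := by
  rintro ⟨C, hC, h⟩
  refine ⟨2 * C + 2, by positivity, ?_⟩
  intro X k hk hkX
  have hkR : (1 : ℝ) ≤ k := by exact_mod_cast hk
  have hk0 : (0 : ℝ) < k := by linarith
  have hXR : (k : ℝ) ≤ X := by exact_mod_cast hkX
  have hX0 : (0 : ℝ) ≤ X := by linarith
  have hphi : 0 < Nat.totient k := Nat.totient_pos.2 hk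
  have hphiR : (0 : ℝ) < Nat.totient k := by exact_mod_cast hphi
  have hlog : 0 ≤ Real.log (X / k) :=
    Real.log_nonneg (by rw [le_div_iff₀ hk0]; linarith)
  have hr : 0 ≤ (X : ℝ) * ((k : ℝ) / Nat.totient k) * (1 + Real.log (X / k)) := by positivity
  rcases Nat.even_or_odd k with he | ho
  · have h1 := h X k hk he hkX
    have h2 : ∑ j ∈ Icc 1 (X / k), sg (j * k) * ((X : ℝ) - j * k) =
        ∑ j ∈ Icc 1 (X / k), sing (j * k) * ((X : ℝ) - j * k) := by
      refine Finset.sum_congr rfl fun j _ => ?_
      rw [sg, if_pos (he.mul_left j)]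
    rw [h2]
    refine h1.trans ?_
    nlinarith [mul_nonneg hC.le hr]
  · have hodd : ∀ j, Even (j * k) ↔ Even j := fun j => by
      rw [Nat.even_mul]
      simp [Nat.not_even_iff_odd.2 ho]
    have hz : ∀ j ∈ Icc 1 (X / k), ¬ Even j → sg (j * k) * ((X : ℝ) - j * k) = 0 := by
      intro j _ hj
      rw [sg, if_neg (fun hh => hj ((hodd j).1 hh)), zero_mul]
    have hφ : Nat.totient (2 * k) = Nat.totient k := by
      rw [Nat.totient_mul ((Nat.coprime_two_left).2 ho), Nat.totient_two, one_mul]
    by_cases h2k : 2 * k ≤ X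
    · have h1 := h X (2 * k) (by omega) (even_two_mul k) h2k
      have h2 : ∑ i ∈ Icc 1 (X / (2 * k)), sing (i * (2 * k)) *
          ((X : ℝ) - i * ((2 * k : ℕ) : ℝ)) =
          ∑ j ∈ Icc 1 (X / k), sg (j * k) * ((X : ℝ) - j * k) := by
        have h3 : ∑ j ∈ (Icc 1 (X / k)).filter (fun j => Even j),
            sg (j * k) * ((X : ℝ) - j * k) =
            ∑ j ∈ Icc 1 (X / k), sg (j * k) * ((X : ℝ) - j * k) := by
          rw [Finset.sum_filter]
          refine Finset.sum_congr rfl fun j hj => ?_
          split_ifs with hh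
          · rfl
          · exact (hz j hj hh).symm
        rw [← h3]
        refine Finset.sum_bij' (fun i _ => 2 * i) (fun j _ => j / 2) ?_ ?_ ?_ ?_ ?_
        · intro i hi
          rw [Finset.mem_Icc] at hi
          rw [Finset.mem_filter, Finset.mem_Icc]
          have h4 : i * (2 * k) ≤ X := (Nat.le_div_iff_mul_le (by omega)).1 hi.2
          refine ⟨⟨by omega, (Nat.le_div_iff_mul_le hk).2 ?_⟩, even_two_mul i⟩
          calc 2 * i * k = i * (2 * k) := by ring
            _ ≤ X := h4
        · intro j hj
          rw [Finset.mem_filter, Finset.mem_Icc] at hj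
          obtain ⟨⟨hj1, hj2⟩, ⟨m, hm⟩⟩ := hj
          have h4 : j * k ≤ X := (Nat.le_div_iff_mul_le hk).1 hj2
          rw [Finset.mem_Icc]
          refine ⟨by omega, (Nat.le_div_iff_mul_le (by omega)).2 ?_⟩
          have h5 : j / 2 = m := by omega
          rw [h5]
          calc m * (2 * k) = (m + m) * k := by ring
            _ = j * k := by rw [hm]
            _ ≤ X := h4
        · intro i _
          omega
        · intro j hj
          rw [Finset.mem_filter] at hj
          obtain ⟨_, ⟨m, hm⟩⟩ := hj
          omega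
        · intro i _
          rw [sg, if_pos ((hodd _).2 (even_two_mul i)),
            show 2 * i * k = i * (2 * k) by ring]
          push_cast
          ring
      rw [h2, hφ] at h1
      refine h1.trans ?_
      have hl2 : Real.log ((X : ℝ) / ((2 * k : ℕ) : ℝ)) ≤ Real.log (X / k) := by
        apply Real.log_le_log
        · have : (0 : ℝ) < ((2 * k : ℕ) : ℝ) := by
            push_cast
            linarith
          have : (0 : ℝ) < X := by linarith
          positivity
        · push_cast
          apply div_le_div_of_nonneg_left hX0 hk0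
          linarith
      have h6 : C * (X : ℝ) * (((2 * k : ℕ) : ℝ) / Nat.totient k) *
          (1 + Real.log ((X : ℝ) / ((2 * k : ℕ) : ℝ))) ≤
          C * (X : ℝ) * (((2 * k : ℕ) : ℝ) / Nat.totient k) * (1 + Real.log (X / k)) := by
        apply mul_le_mul_of_nonneg_left
        · linarith
        · positivity
      refine h6.trans ?_
      have h7 : C * (X : ℝ) * (((2 * k : ℕ) : ℝ) / Nat.totient k) * (1 + Real.log (X / k)) =
          2 * C * ((X : ℝ) * ((k : ℝ) / Nat.totient k) * (1 + Real.log (X / k))) := by
        push_cast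
        ring
      rw [h7]
      nlinarith
    · have h3 : ∑ j ∈ Icc 1 (X / k), sg (j * k) * ((X : ℝ) - j * k) = 0 := by
        refine Finset.sum_eq_zero fun j hj => ?_
        apply hz j hj
        rw [Finset.mem_Icc] at hj
        have h4 : X / k < 2 := (Nat.div_lt_iff_lt_mul hk).2 (by omega)
        have h5 : j = 1 := by omega
        rw [h5]
        decide
      rw [h3, mul_zero, zero_sub, abs_neg, abs_of_nonneg (by positivity)]
      have h8 : (X : ℝ) < 2 * k := by
        push Not at h2k
        exact_mod_cast h2k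
      have h9 : (X : ℝ) ^ 2 / Nat.totient k ≤ 2 * ((X : ℝ) * ((k : ℝ) / Nat.totient k) * 1) := by
        rw [show 2 * ((X : ℝ) * ((k : ℝ) / Nat.totient k) * 1) =
          (2 * X * k) / Nat.totient k by ring]
        apply div_le_div_of_nonneg_right _ hphiR.le
        nlinarith
      have h10 : (X : ℝ) * ((k : ℝ) / Nat.totient k) * 1 ≤
          (X : ℝ) * ((k : ℝ) / Nat.totient k) * (1 + Real.log (X / k)) := by
        apply mul_le_mul_of_nonneg_left
        · linarith
        · positivity
      nlinarith [mul_nonneg hC.le hr]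

end Pool.Agent.P8H57.FG
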